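import Pool.Agent.NS.Step

open Finset

namespace NS

private theorem box_D_equiv (m : ℕ) {U U' V V' : Type} [Fintype U] [Fintype U'] [Fintype V]
    [Fintype V'] (e : U' ≃ U) (e' : V' ≃ V) (f : U → V → ℝ) :
    D m f = D m (fun u v => f (e u) (e' v)) := by
  unfold D
  symm
  refine Fintype.sum_equiv (Equiv.arrowCongr (Equiv.refl (Fin m)) e) _ _ fun x => ?_
  refine Fintype.sum_equiv (Equiv.arrowCongr (Equiv.refl (Fin m)) e') _ _ fun y => ?_
  rfl

private theorem box_ind_nonneg (A : Set (ℕ × ℕ)) (x y : ℕ) : 0 ≤ ind A x y := by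
  unfold ind
  split_ifs
  · exact zero_le_one
  · exact le_rfl

private theorem box_pick (m H : ℕ) (hm : 0 < m) (hH : 0 < H) (i : ℕ) (hi : i < 2 * m * H) :
    ∃ i0 : ℕ, (∀ a, a < m → i0 + a * H < 2 * m * H) ∧ ∃ a, a < m ∧ i0 + a * H = i := by
  obtain ⟨m, rfl⟩ : ∃ m', m = m' + 1 := ⟨m - 1, by omega⟩
  rcases lt_or_ge i ((m + 1) * H) with h | h
  · refine ⟨i, fun a ha => ?_, 0, hm, by simp⟩
    have h1 : a * H ≤ m * H := Nat.mul_le_mul_right H (by omega)
    have h2 : 2 * (m + 1) * H = (m + 1) * H + (m * H + H) := by ring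
    omega
  · have h2 : 2 * (m + 1) * H = (m + 1) * H + (m * H + H) := by ring
    have h3 : (m + 1) * H = m * H + H := by ring
    refine ⟨i - m * H, fun a ha => ?_, m, by omega, by omega⟩
    have h1 : a * H ≤ m * H := Nat.mul_le_mul_right H (by omega)
    omega

/-- NS-4. Iteration over the scales `K^J`. -/
theorem box (m K H : ℕ) (hm : 0 < m) (hH : 0 < H) (hK : K = 2 * m * H) (ε : ℝ)
    (hε : 1 / (H : ℝ) ≤ ε) (A : Set (ℕ × ℕ)) (hA : ¬ HasGrid A m ε) (J p q : ℕ) :
    D m (fun u v : Fin (K ^ J) => ind A (p + u) (q + v)) ≤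
      ((K : ℝ) ^ (2 * m - 2) - 1 / (m : ℝ) ^ 2) ^ J *
        ∑ u : Fin (K ^ J), ∑ v : Fin (K ^ J), ind A (p + u) (q + v) := by
  have hKpos : 0 < K := by rw [hK]; positivity
  have hm1 : (1 : ℝ) ≤ m := by exact_mod_cast hm
  have hlam : 0 ≤ (K : ℝ) ^ (2 * m - 2) - 1 / (m : ℝ) ^ 2 := by
    have h1 : (1 : ℝ) ≤ (K : ℝ) ^ (2 * m - 2) := one_le_pow₀ (by exact_mod_cast hKpos)
    have h2 : 1 / (m : ℝ) ^ 2 ≤ 1 := by
      rw [div_le_one (by positivity)]
      exact one_le_pow₀ hm1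
    linarith
  induction J generalizing p q with
  | zero =>
    unfold D
    rw [pow_zero ((K : ℝ) ^ (2 * m - 2) - 1 / (m : ℝ) ^ 2), one_mul]
    have h0 : ∀ u : Fin (K ^ 0), (u : ℕ) = 0 := fun u => by
      have h := u.2
      have h' : K ^ 0 = 1 := pow_zero K
      omega
    have : Unique (Fin (K ^ 0)) := by
      rw [pow_zero]
      infer_instance
    rw [Fintype.sum_unique, Fintype.sum_unique, Fintype.sum_unique, Fintype.sum_unique]
    simp only [h0, add_zero]
    rw [Finset.prod_const, Finset.prod_const]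
    unfold ind
    split_ifs
    · simp
    · have h3 : (Finset.univ : Finset (Fin m)).card ≠ 0 := by
        rw [Finset.card_univ, Fintype.card_fin]
        exact hm.ne'
      rw [zero_pow h3, zero_pow h3]
  | succ J ih =>
    let e : Fin K × Fin (K ^ J) ≃ Fin (K ^ (J + 1)) :=
      finProdFinEquiv.trans (finCongr (pow_succ' K J).symm)
    have he : ∀ (i : Fin K) (u : Fin (K ^ J)), ((e (i, u) : Fin (K ^ (J + 1))) : ℕ)
        = (u : ℕ) + K ^ J * (i : ℕ) := fun i u => rfl
    rw [box_D_equiv m e e]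
    have hpt : ∀ (i j : Fin K) (u v : Fin (K ^ J)),
        ind A (p + (e (i, u) : ℕ)) (q + (e (j, v) : ℕ))
          = ind A (p + K ^ J * (i : ℕ) + u) (q + K ^ J * (j : ℕ) + v) := by
      intro i j u v
      rw [he, he]
      congr 1 <;> ring
    have hstep := step m hm (I := Fin K) (U := Fin (K ^ J))
      (fun x y => ind A (p + (e x : ℕ)) (q + (e y : ℕ))) (fun x y => box_ind_nonneg A _ _) ?_
    · refine hstep.trans ?_
      rw [Fintype.card_fin, pow_succ' ((K : ℝ) ^ (2 * m - 2) - 1 / (m : ℝ) ^ 2) J, mul_assoc]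
      refine mul_le_mul_of_nonneg_left ?_ hlam
      have hsum : ∑ u : Fin (K ^ (J + 1)), ∑ v : Fin (K ^ (J + 1)), ind A (p + u) (q + v)
          = ∑ i : Fin K, ∑ j : Fin K, ∑ u : Fin (K ^ J), ∑ v : Fin (K ^ J),
            ind A (p + K ^ J * (i : ℕ) + u) (q + K ^ J * (j : ℕ) + v) := by
        rw [← Equiv.sum_comp e (fun u : Fin (K ^ (J + 1)) =>
          ∑ v : Fin (K ^ (J + 1)), ind A (p + u) (q + v)), Fintype.sum_prod_type]
        refine Finset.sum_congr rfl fun i _ => ?_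
        rw [Finset.sum_comm (s := (Finset.univ : Finset (Fin K)))]
        refine Finset.sum_congr rfl fun u _ => ?_
        rw [← Equiv.sum_comp e (fun v : Fin (K ^ (J + 1)) =>
          ind A (p + (e (i, u) : ℕ)) (q + v)), Fintype.sum_prod_type]
        refine Finset.sum_congr rfl fun j _ => ?_
        refine Finset.sum_congr rfl fun v _ => ?_
        exact hpt i j u v
      rw [hsum, Finset.mul_sum]
      refine Finset.sum_le_sum fun i _ => ?_
      rw [Finset.mul_sum]
      refine Finset.sum_le_sum fun j _ => ?_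
      have h := ih (p + K ^ J * (i : ℕ)) (q + K ^ J * (j : ℕ))
      refine le_trans (le_of_eq ?_) h
      refine congrArg (D m) ?_
      funext u v
      exact hpt i j u v
    · intro i j
      obtain ⟨i0, hi0, a, ha, hia⟩ := box_pick m H hm hH i (hK ▸ i.2)
      obtain ⟨j0, hj0, b, hb, hjb⟩ := box_pick m H hm hH j (hK ▸ j.2)
      refine ⟨fun a => ⟨i0 + a * H, hK ▸ hi0 a a.2⟩, fun b => ⟨j0 + b * H, hK ▸ hj0 b b.2⟩,
        ⟨⟨a, ha⟩, Fin.ext hia⟩, ⟨⟨b, hb⟩, Fin.ext hjb⟩, fun u v => ?_⟩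
      by_contra hne
      apply hA
      have hmem : ∀ a b : Fin m, (p + K ^ J * (i0 + a * H) + (u a : ℕ),
          q + K ^ J * (j0 + b * H) + (v b : ℕ)) ∈ A := by
        intro a b
        have h1 := (Finset.prod_ne_zero_iff.1 ((Finset.prod_ne_zero_iff.1 hne) a
          (Finset.mem_univ a))) b (Finset.mem_univ b)
        simp only [hpt] at h1
        by_contra h2
        apply h1
        unfold ind
        rw [if_neg h2]
      have hHK : (0 : ℝ) < (H : ℝ) * (K : ℝ) ^ J := by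
        have h1 : (0 : ℝ) < H := by exact_mod_cast hH
        have h2 : (0 : ℝ) < K := by exact_mod_cast hKpos
        positivity
      have hbound : (K : ℝ) ^ J ≤ ε * ((H : ℝ) * (K : ℝ) ^ J) := by
        have h1 : (0 : ℝ) < H := by exact_mod_cast hH
        have h2 : (K : ℝ) ^ J = 1 / (H : ℝ) * ((H : ℝ) * (K : ℝ) ^ J) := by
          field_simp
        calc (K : ℝ) ^ J = 1 / (H : ℝ) * ((H : ℝ) * (K : ℝ) ^ J) := h2
          _ ≤ ε * ((H : ℝ) * (K : ℝ) ^ J) := mul_le_mul_of_nonneg_right hε hHK.le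
      have hu : ∀ w : Fin (K ^ J), |((w : ℕ) : ℝ)| ≤ ε * ((H : ℝ) * (K : ℝ) ^ J) := by
        intro w
        rw [abs_of_nonneg (Nat.cast_nonneg _)]
        refine le_trans ?_ hbound
        exact_mod_cast w.2.le
      refine ⟨fun a => p + K ^ J * (i0 + a * H) + (u a : ℕ),
        fun b => q + K ^ J * (j0 + b * H) + (v b : ℕ), (H : ℝ) * (K : ℝ) ^ J,
        (p : ℝ) + (K : ℝ) ^ J * i0, (q : ℝ) + (K : ℝ) ^ J * j0, hHK, hmem, fun a => ?_,
        fun b => ?_⟩
      · have h := hu (u a)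
        have h2 : (((p + K ^ J * (i0 + a * H) + (u a : ℕ) : ℕ) : ℝ) -
            ((p : ℝ) + (K : ℝ) ^ J * i0 + (a : ℕ) * ((H : ℝ) * (K : ℝ) ^ J)))
              = ((u a : ℕ) : ℝ) := by
          push_cast
          ring
        rw [h2]
        exact h
      · have h := hu (v b)
        have h2 : (((q + K ^ J * (j0 + b * H) + (v b : ℕ) : ℕ) : ℝ) -
            ((q : ℝ) + (K : ℝ) ^ J * j0 + (b : ℕ) * ((H : ℝ) * (K : ℝ) ^ J)))
              = ((v b : ℕ) : ℝ) := by
          push_cast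
          ring
        rw [h2]
        exact h

end NS
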