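import Pool.Agent.NS.Defs

open Finset

namespace NS

/-- power mean inequality without division -/
theorem sid_pow {X : Type} [Fintype X] (F : X → ℝ) (hF : ∀ x, 0 ≤ F x) (k : ℕ) :
    (∑ x, F x) ^ (k + 1) ≤ (Fintype.card X : ℝ) ^ k * ∑ x, F x ^ (k + 1) := by
  have h1 := pow_sum_le_card_mul_sum_pow (s := (Finset.univ : Finset X)) (f := F)
    (fun a _ => hF a) k
  rwa [Finset.card_univ] at h1

/-- sums of powers of sums -/
theorem sid_expand {X : Type} [Fintype X] (m : ℕ) (G : X → ℝ) :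
    (∑ x, G x) ^ m = ∑ y : Fin m → X, ∏ b, G (y b) := by
  have h1 := Finset.prod_univ_sum (ι := Fin m) (fun _ => (Finset.univ : Finset X))
    (fun _ x => G x)
  rw [Finset.prod_const, Finset.card_univ, Fintype.card_fin] at h1
  rw [h1, Fintype.piFinset_univ]

/-- NS-3. Lower bound for the number of copies of `K_{m,m}`. -/
theorem sid (m : ℕ) (hm : 0 < m) {U V : Type} [Fintype U] [Fintype V]
    (f : U → V → ℝ) (hf : ∀ x y, 0 ≤ f x y) :
    (∑ u : U, ∑ v : V, f u v) ^ (m * m) ≤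
      (Fintype.card U : ℝ) ^ (m * m - m) * (Fintype.card V : ℝ) ^ (m * m - m) * D m f := by
  classical
  obtain ⟨k, rfl⟩ : ∃ k, m = k + 1 := ⟨m - 1, by omega⟩
  set m := k + 1 with hmk
  have hD : D m f = ∑ x : Fin m → U, (∑ v, ∏ a, f (x a) v) ^ m := by
    unfold D
    apply Finset.sum_congr rfl
    intro x _
    rw [sid_expand]
    apply Finset.sum_congr rfl
    intro y _
    rw [Finset.prod_comm]
  have hF : ∀ x : Fin m → U, 0 ≤ ∑ v, ∏ a, f (x a) v := fun x =>
    Finset.sum_nonneg fun v _ => Finset.prod_nonneg fun a _ => hf _ _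
  have h1 : (∑ x : Fin m → U, ∑ v, ∏ a, f (x a) v) ^ m ≤
      (Fintype.card U : ℝ) ^ (m * m - m) * D m f := by
    have h2 := sid_pow (fun x : Fin m → U => ∑ v, ∏ a, f (x a) v) hF k
    rw [← hmk] at h2
    refine h2.trans (le_of_eq ?_)
    rw [hD]
    congr 1
    rw [Fintype.card_fun, Fintype.card_fin, Nat.cast_pow, ← pow_mul]
    congr 1
    rw [hmk]
    have : (k + 1) * (k + 1) = (k + 1) * k + (k + 1) := by ring
    omega
  have h3 : (∑ x : Fin m → U, ∑ v, ∏ a, f (x a) v) = ∑ v, (∑ u, f u v) ^ m := by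
    rw [Finset.sum_comm]
    apply Finset.sum_congr rfl
    intro v _
    rw [sid_expand]
  have h4 : (∑ u : U, ∑ v : V, f u v) ^ m ≤
      (Fintype.card V : ℝ) ^ k * ∑ v, (∑ u, f u v) ^ m := by
    rw [Finset.sum_comm]
    exact sid_pow (fun v => ∑ u, f u v) (fun v => Finset.sum_nonneg fun u _ => hf _ _) k
  have hS : 0 ≤ ∑ u : U, ∑ v : V, f u v :=
    Finset.sum_nonneg fun u _ => Finset.sum_nonneg fun v _ => hf _ _
  calc (∑ u : U, ∑ v : V, f u v) ^ (m * m) = ((∑ u : U, ∑ v : V, f u v) ^ m) ^ m := by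
        rw [pow_mul]
    _ ≤ ((Fintype.card V : ℝ) ^ k * ∑ v, (∑ u, f u v) ^ m) ^ m := by
        apply pow_le_pow_left₀ (pow_nonneg hS _) h4
    _ = (Fintype.card V : ℝ) ^ (m * m - m) * (∑ x : Fin m → U, ∑ v, ∏ a, f (x a) v) ^ m := by
        rw [mul_pow, ← pow_mul, h3]
        congr 2
        rw [hmk]
        have : (k + 1) * (k + 1) = k * (k + 1) + (k + 1) := by ring
        omega
    _ ≤ (Fintype.card V : ℝ) ^ (m * m - m) * ((Fintype.card U : ℝ) ^ (m * m - m) * D m f) := by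
        apply mul_le_mul_of_nonneg_left h1
        positivity
    _ = (Fintype.card U : ℝ) ^ (m * m - m) * (Fintype.card V : ℝ) ^ (m * m - m) * D m f := by
        ring

end NS
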