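import Pool.Agent.NS.Box
import Pool.Agent.NS.Sid

open Finset

namespace NS

/-- NS-5. The number of points of a set without approximate grids. -/
theorem count (m K H : ℕ) (hm : 2 ≤ m) (hH : 0 < H) (hK : K = 2 * m * H) (ε : ℝ)
    (hε : 1 / (H : ℝ) ≤ ε) (A : Set (ℕ × ℕ)) (hA : ¬ HasGrid A m ε) (J : ℕ) :
    (∑ u : Fin (K ^ J), ∑ v : Fin (K ^ J), ind A u v) ^ (m * m - 1) ≤
      (1 - 1 / ((m : ℝ) ^ 2 * (K : ℝ) ^ (2 * m - 2))) ^ J *
        (((K : ℝ) ^ J) ^ 2) ^ (m * m - 1) := by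
  have hm0 : 0 < m := by omega
  have hind : ∀ x y : ℕ, 0 ≤ ind A x y := by
    intro x y
    unfold ind
    split_ifs
    · exact zero_le_one
    · exact le_rfl
  obtain ⟨S, hS⟩ : ∃ S : ℝ, S = ∑ u : Fin (K ^ J), ∑ v : Fin (K ^ J), ind A u v := ⟨_, rfl⟩
  rw [← hS]
  have hS0 : 0 ≤ S := by
    rw [hS]
    exact Finset.sum_nonneg fun u _ => Finset.sum_nonneg fun v _ => hind _ _
  have hsid := sid m hm0 (fun u v : Fin (K ^ J) => ind A u v) (fun u v => hind _ _)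
  have hbox := box m K H hm0 hH hK ε hε A hA J 0 0
  simp only [zero_add] at hbox
  rw [← hS] at hsid hbox
  rw [Fintype.card_fin] at hsid
  have hK1 : 1 ≤ K := by
    rw [hK]
    exact Nat.mul_pos (by omega) hH
  have hK1' : (1 : ℝ) ≤ K := by exact_mod_cast hK1
  have hm1' : (1 : ℝ) ≤ m := by exact_mod_cast hm0
  obtain ⟨P, hP⟩ : ∃ P : ℝ, P = (K : ℝ) ^ (2 * m - 2) := ⟨_, rfl⟩
  have hP1 : 1 ≤ P := by
    rw [hP]
    exact one_le_pow₀ hK1'
  have hm2 : (1 : ℝ) ≤ (m : ℝ) ^ 2 := one_le_pow₀ hm1'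
  have hmP : 1 ≤ (m : ℝ) ^ 2 * P := by nlinarith
  rw [← hP]
  rw [← hP] at hbox
  have hmu : 0 ≤ 1 - 1 / ((m : ℝ) ^ 2 * P) := by
    have : 1 / ((m : ℝ) ^ 2 * P) ≤ 1 := by
      rw [div_le_one (by linarith)]
      exact hmP
    linarith
  have hmm : 4 ≤ m * m := by nlinarith
  rcases hS0.eq_or_lt with h0 | hpos
  · rw [← h0, zero_pow (by omega)]
    positivity
  · have hlam : P - 1 / (m : ℝ) ^ 2 = P * (1 - 1 / ((m : ℝ) ^ 2 * P)) := by
      have : P ≠ 0 := by linarith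
      have : (m : ℝ) ≠ 0 := by linarith
      field_simp
    rw [hlam, mul_pow] at hbox
    push_cast at hsid
    obtain ⟨N, hN⟩ : ∃ N : ℝ, N = (K : ℝ) ^ J := ⟨_, rfl⟩
    have hN1 : 1 ≤ N := by
      rw [hN]
      exact one_le_pow₀ hK1'
    have hPJ : P ^ J = N ^ (2 * m - 2) := by
      rw [hP, hN, ← pow_mul, ← pow_mul, mul_comm]
    rw [hPJ] at hbox
    rw [← hN] at hsid ⊢
    have h1 : S ^ (m * m) ≤ N ^ (m * m - m) * N ^ (m * m - m) *
        (N ^ (2 * m - 2) * (1 - 1 / ((m : ℝ) ^ 2 * P)) ^ J * S) :=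
      hsid.trans (mul_le_mul_of_nonneg_left hbox (by positivity))
    have h2 : S ^ (m * m) = S * S ^ (m * m - 1) := by
      rw [← pow_succ']
      congr 1
      omega
    have hmle : m ≤ m * m := Nat.le_mul_of_pos_left m hm0
    have h3 : N ^ (m * m - m) * N ^ (m * m - m) * N ^ (2 * m - 2) = (N ^ 2) ^ (m * m - 1) := by
      rw [← pow_add, ← pow_add, ← pow_mul]
      congr 1
      omega
    have h4 : N ^ (m * m - m) * N ^ (m * m - m) *
        (N ^ (2 * m - 2) * (1 - 1 / ((m : ℝ) ^ 2 * P)) ^ J * S) =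
        S * ((1 - 1 / ((m : ℝ) ^ 2 * P)) ^ J * (N ^ 2) ^ (m * m - 1)) := by
      rw [← h3]
      ring
    rw [h2, h4] at h1
    exact le_of_mul_le_mul_left h1 hpos

end NS
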