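import Mathlib

/-!
# Approximate squares and grids in sparse subsets of the planar lattice: definitions
-/

open Finset

namespace NS

/-- the number of homomorphic images of the complete bipartite graph `K_{m,m}`, weighted by `f` -/
noncomputable def D (m : ℕ) {U V : Type} [Fintype U] [Fintype V] (f : U → V → ℝ) : ℝ :=
  ∑ x : Fin m → U, ∑ y : Fin m → V, ∏ a, ∏ b, f (x a) (y b)

open Classical in
/-- the indicator function of `A` -/
noncomputable def ind (A : Set (ℕ × ℕ)) (x y : ℕ) : ℝ := if (x, y) ∈ A then 1 else 0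

/-- `A` contains an `m × m` grid `{x_a} × {y_b}` which is `ε`-close to a homothetic image of
`{0,...,m-1}²`: for some `d > 0`, `s`, `t` all `|x_a - (s + a d)|` and `|y_b - (t + b d)|` are at
most `ε d`. -/
def HasGrid (A : Set (ℕ × ℕ)) (m : ℕ) (ε : ℝ) : Prop :=
  ∃ (x y : Fin m → ℕ) (d s t : ℝ), 0 < d ∧ (∀ a b, (x a, y b) ∈ A) ∧
    (∀ a : Fin m, |(x a : ℝ) - (s + (a : ℕ) * d)| ≤ ε * d) ∧
    (∀ b : Fin m, |(y b : ℝ) - (t + (b : ℕ) * d)| ≤ ε * d)

end NS
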