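import Pool.Agent.NS.Defs

open Finset

namespace NS

theorem hold_amgm {m : ℕ} (hm : 0 < m) (z : Fin m → ℝ) (hz : ∀ a, 0 ≤ z a) :
    ∏ a, z a ≤ (∑ a, z a ^ m) / m := by
  have h := Real.geom_mean_le_arith_mean_weighted (Finset.univ : Finset (Fin m))
    (fun _ => (m : ℝ)⁻¹) (fun a => z a ^ m) (fun _ _ => by positivity)
    (by
      rw [Finset.sum_const, Finset.card_univ, Fintype.card_fin, nsmul_eq_mul]
      exact mul_inv_cancel₀ (by positivity))
    (fun a _ => pow_nonneg (hz a) m)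
  have h1 : ∏ a, (z a ^ m) ^ ((m : ℝ)⁻¹) = ∏ a, z a :=
    Finset.prod_congr rfl fun a _ => Real.pow_rpow_inv_natCast (hz a) hm.ne'
  rw [h1] at h
  refine h.trans (le_of_eq ?_)
  rw [← Finset.mul_sum, div_eq_inv_mul]

theorem hold_half {m : ℕ} (hm : 0 < m) {X Y : Type*} [Fintype X] [Fintype Y]
    (h : Fin m → X → Y → ℝ) (hh : ∀ a x y, 0 ≤ h a x y) :
    ∑ y, ∑ u : Fin m → X, ∏ a, h a (u a) y
      ≤ (∑ a, ∑ y, ∑ u : Fin m → X, ∏ c, h a (u c) y) / m := by
  classical
  have h1 : ∀ y, ∑ u : Fin m → X, ∏ a, h a (u a) y = ∏ a, ∑ x, h a x y := by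
    intro y
    rw [Finset.prod_univ_sum, Fintype.piFinset_univ]
  have h2 : ∀ a y, ∑ u : Fin m → X, ∏ c, h a (u c) y = (∑ x, h a x y) ^ m := by
    intro a y
    have h3 : (∑ x, h a x y) ^ m = ∏ _c : Fin m, ∑ x, h a x y := by
      rw [Finset.prod_const, Finset.card_univ, Fintype.card_fin]
    rw [h3, Finset.prod_univ_sum, Fintype.piFinset_univ]
  simp only [h1, h2]
  rw [Finset.sum_comm, Finset.sum_div]
  refine Finset.sum_le_sum fun y _ => ?_
  exact hold_amgm hm _ fun a => Finset.sum_nonneg fun x _ => hh a x y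

/-- NS-1. The mixed sum is at most the mean of the pure sums. -/
theorem hold (m : ℕ) (hm : 0 < m) {I J U V : Type} [Fintype U] [Fintype V]
    (g : I → J → U → V → ℝ) (hg : ∀ i j u v, 0 ≤ g i j u v) (i : Fin m → I) (j : Fin m → J) :
    ∑ u : Fin m → U, ∑ v : Fin m → V, ∏ a, ∏ b, g (i a) (j b) (u a) (v b)
      ≤ (∑ a, ∑ b, D m (g (i a) (j b))) / (m : ℝ) ^ 2 := by
  classical
  rw [Finset.sum_comm]
  refine (hold_half hm (fun a (x : U) (v : Fin m → V) => ∏ b, g (i a) (j b) x (v b))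
    (fun a x v => Finset.prod_nonneg fun b _ => hg _ _ _ _)).trans ?_
  have hm' : (0 : ℝ) < m := by exact_mod_cast hm
  have h1 : ∀ a, ∑ v : Fin m → V, ∑ u : Fin m → U, ∏ c, ∏ b, g (i a) (j b) (u c) (v b)
      ≤ (∑ b, D m (g (i a) (j b))) / m := by
    intro a
    have h2 := hold_half hm (fun b (y : V) (u : Fin m → U) => ∏ c, g (i a) (j b) (u c) y)
      (fun b y u => Finset.prod_nonneg fun c _ => hg _ _ _ _)
    calc ∑ v : Fin m → V, ∑ u : Fin m → U, ∏ c, ∏ b, g (i a) (j b) (u c) (v b)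
        = ∑ u : Fin m → U, ∑ v : Fin m → V, ∏ b, ∏ c, g (i a) (j b) (u c) (v b) := by
          rw [Finset.sum_comm]
          refine Finset.sum_congr rfl fun u _ => Finset.sum_congr rfl fun v _ => ?_
          exact Finset.prod_comm
      _ ≤ _ := h2
      _ = (∑ b, D m (g (i a) (j b))) / m := by
          congr 1
          refine Finset.sum_congr rfl fun b _ => ?_
          unfold D
          refine Finset.sum_congr rfl fun u _ => Finset.sum_congr rfl fun v _ => ?_
          exact Finset.prod_comm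
  calc (∑ a, ∑ v : Fin m → V, ∑ u : Fin m → U, ∏ c, ∏ b, g (i a) (j b) (u c) (v b)) / (m : ℝ)
      ≤ (∑ a, (∑ b, D m (g (i a) (j b))) / m) / m := by
        gcongr with a _
        exact h1 a
    _ = (∑ a, ∑ b, D m (g (i a) (j b))) / (m : ℝ) ^ 2 := by
        rw [← Finset.sum_div, div_div, sq]

end NS
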