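import Pool.Agent.NS.Count

open Finset

namespace NS

theorem NS6_ind_nonneg (A : Set (ℕ × ℕ)) (x y : ℕ) : 0 ≤ ind A x y := by
  unfold ind
  split_ifs <;> norm_num

theorem NS6_ind_mem (A : Set (ℕ × ℕ)) (x y : ℕ) (h : (x, y) ∈ A) : ind A x y = 1 := by
  unfold ind
  rw [if_pos h]

/-- the number of points of a finite subset of `A` inside the box is at most the sum of `ind` -/
theorem NS6_card (A : Set (ℕ × ℕ)) (n : ℕ) (u : Finset A)
    (hu : ∀ p ∈ u, p.1.1 < n ∧ p.1.2 < n) :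
    (#u : ℝ) ≤ ∑ i : Fin n, ∑ j : Fin n, ind A i j := by
  have h1 : ∑ i : Fin n, ∑ j : Fin n, ind A i j =
      ∑ p ∈ range n ×ˢ range n, ind A p.1 p.2 := by
    rw [Finset.sum_product, ← Fin.sum_univ_eq_sum_range (fun i => ∑ j ∈ range n, ind A i j)]
    apply Finset.sum_congr rfl
    intro i _
    exact Fin.sum_univ_eq_sum_range (fun j => ind A i j) n
  rw [h1]
  set v : Finset (ℕ × ℕ) := u.map ⟨Subtype.val, Subtype.val_injective⟩ with hv
  have h2 : #v = #u := Finset.card_map _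
  have h3 : v ⊆ range n ×ˢ range n := by
    intro p hp
    rw [hv, Finset.mem_map] at hp
    obtain ⟨a, ha, rfl⟩ := hp
    rw [Finset.mem_product, mem_range, mem_range]
    exact hu a ha
  have h4 : (#u : ℝ) = ∑ p ∈ v, ind A p.1 p.2 := by
    rw [← h2, Finset.cast_card]
    apply Finset.sum_congr rfl
    intro p hp
    rw [hv, Finset.mem_map] at hp
    obtain ⟨a, ha, rfl⟩ := hp
    exact (NS6_ind_mem A _ _ a.2).symm
  rw [h4]
  exact Finset.sum_le_sum_of_subset_of_nonneg h3 (fun p _ _ => NS6_ind_nonneg A _ _)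

/-- NS-6. -/
theorem main (m : ℕ) (hm : 2 ≤ m) (ε : ℝ) (hε : 0 < ε) :
    ∃ c : ℝ, 0 < c ∧ c < 1 ∧ ∀ A : Set (ℕ × ℕ), ¬ HasGrid A m ε →
      Summable (fun p : A => 1 / ((p.1.1 : ℝ) ^ 2 + (p.1.2 : ℝ) ^ 2) ^ (1 - c)) := by
  classical
  obtain ⟨H, hH⟩ := exists_nat_ge (max (1 / ε) 1)
  have hH1 : (1 : ℝ) ≤ H := (le_max_right _ _).trans hH
  have hHε : 1 / ε ≤ H := (le_max_left _ _).trans hH
  have hHpos : 0 < H := by
    have : (0 : ℝ) < H := by linarith
    exact_mod_cast this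
  have hHR : (0 : ℝ) < H := by linarith
  have hε' : 1 / (H : ℝ) ≤ ε := by
    rw [div_le_iff₀ hHR]
    rw [div_le_iff₀ hε] at hHε
    linarith
  obtain ⟨K, hK⟩ : ∃ K, K = 2 * m * H := ⟨_, rfl⟩
  have hK4 : 4 ≤ K := by
    rw [hK]
    have : 1 ≤ H := hHpos
    nlinarith
  have hKR : (4 : ℝ) ≤ K := by exact_mod_cast hK4
  have hK0 : (0 : ℝ) < K := by linarith
  have hmR : (2 : ℝ) ≤ m := by exact_mod_cast hm
  -- the number `q`
  set q : ℝ := 1 - 1 / ((m : ℝ) ^ 2 * (K : ℝ) ^ (2 * m - 2)) with hq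
  have hden : (1 : ℝ) < (m : ℝ) ^ 2 * (K : ℝ) ^ (2 * m - 2) := by
    have h1 : (4 : ℝ) ≤ (m : ℝ) ^ 2 := by nlinarith
    have h2 : (1 : ℝ) ≤ (K : ℝ) ^ (2 * m - 2) := one_le_pow₀ (by linarith)
    nlinarith
  have hq1 : q < 1 := by
    rw [hq]
    have : 0 < 1 / ((m : ℝ) ^ 2 * (K : ℝ) ^ (2 * m - 2)) := by positivity
    linarith
  have hq0 : 0 < q := by
    rw [hq]
    have : 1 / ((m : ℝ) ^ 2 * (K : ℝ) ^ (2 * m - 2)) < 1 := by
      rw [div_lt_one (by positivity)]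
      exact hden
    linarith
  set N : ℕ := m * m - 1 with hN
  have hN3 : 3 ≤ N := by
    have : 4 ≤ m * m := by nlinarith
    omega
  have hN0 : N ≠ 0 := by omega
  set θ : ℝ := q ^ (1 / (N : ℝ)) with hθ
  have hθ0 : 0 < θ := Real.rpow_pos_of_pos hq0 _
  have hθ1 : θ < 1 := Real.rpow_lt_one hq0.le hq1 (by positivity)
  have hθN : θ ^ N = q := by
    rw [hθ, one_div]
    exact Real.rpow_inv_natCast_pow hq0.le hN0
  -- the exponent `c`
  have hlogK : 0 < Real.log K := Real.log_pos (by linarith)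
  have hlogθ : Real.log θ < 0 := Real.log_neg hθ0 hθ1
  set c : ℝ := min (1 / 2) (-Real.log θ / (4 * Real.log K)) with hc
  have hc0 : 0 < c := by
    rw [hc]
    apply lt_min (by norm_num)
    apply div_pos (by linarith) (by linarith)
  have hc1 : c ≤ 1 / 2 := min_le_left _ _
  have hc2 : c * (4 * Real.log K) ≤ -Real.log θ := by
    have : c ≤ -Real.log θ / (4 * Real.log K) := min_le_right _ _
    rwa [le_div_iff₀ (by linarith)] at this
  set ρ : ℝ := θ * (K : ℝ) ^ (2 * c) with hρ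
  have hρ0 : 0 < ρ := mul_pos hθ0 (Real.rpow_pos_of_pos hK0 _)
  have hρ1 : ρ < 1 := by
    rw [← Real.log_neg_iff hρ0, hρ, Real.log_mul hθ0.ne' (Real.rpow_pos_of_pos hK0 _).ne',
      Real.log_rpow hK0]
    nlinarith
  refine ⟨c, hc0, by linarith, ?_⟩
  intro A hA
  -- the counting bound
  have hS : ∀ J : ℕ, ∑ u : Fin (K ^ J), ∑ v : Fin (K ^ J), ind A u v ≤
      θ ^ J * ((K : ℝ) ^ J) ^ 2 := by
    intro J
    have h1 := count m K H hm hHpos hK ε hε' A hA J
    rw [← hN, ← hq] at h1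
    have h2 : q ^ J * (((K : ℝ) ^ J) ^ 2) ^ N = (θ ^ J * ((K : ℝ) ^ J) ^ 2) ^ N := by
      rw [mul_pow, ← pow_mul θ, mul_comm J N, pow_mul θ, hθN]
    rw [h2] at h1
    exact le_of_pow_le_pow_left₀ hN0 (by positivity) h1
  apply summable_of_sum_le (c := θ * (K : ℝ) ^ 2 * (∑' J : ℕ, ρ ^ J))
  · intro p
    positivity
  intro u
  set lv : A → ℕ := fun p => Nat.log K (max p.1.1 p.1.2) with hlv
  obtain ⟨n, hn⟩ : ∃ n, ∀ p ∈ u, lv p < n := by
    refine ⟨(u.sup lv) + 1, fun p hp => ?_⟩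
    exact Nat.lt_succ_of_le (Finset.le_sup hp)
  have hmaps : ∀ p ∈ u, lv p ∈ range n := fun p hp => mem_range.mpr (hn p hp)
  rw [← Finset.sum_fiberwise_of_maps_to hmaps]
  have hterm : ∀ J ∈ range n,
      ∑ p ∈ u with lv p = J, 1 / ((p.1.1 : ℝ) ^ 2 + (p.1.2 : ℝ) ^ 2) ^ (1 - c) ≤
      θ * (K : ℝ) ^ 2 * ρ ^ J := by
    intro J _
    have hK1 : 1 < K := by omega
    -- each term is at most `K ^ (-2 J (1 - c))`
    have h1 : ∀ p ∈ u.filter (fun p => lv p = J),
        1 / ((p.1.1 : ℝ) ^ 2 + (p.1.2 : ℝ) ^ 2) ^ (1 - c) ≤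
          1 / (((K : ℝ) ^ J) ^ 2) ^ (1 - c) := by
      intro p hp
      rw [mem_filter] at hp
      have hpJ : Nat.log K (max p.1.1 p.1.2) = J := hp.2
      rcases Nat.eq_zero_or_pos (max p.1.1 p.1.2) with h0 | h0
      · have hx : p.1.1 = 0 := by
          have := le_max_left p.1.1 p.1.2
          omega
        have hy : p.1.2 = 0 := by
          have := le_max_right p.1.1 p.1.2
          omega
        rw [hx, hy]
        have h2 : ((((0 : ℕ) : ℝ)) ^ 2 + (((0 : ℕ) : ℝ)) ^ 2) = 0 := by norm_num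
        rw [h2, Real.zero_rpow (by linarith), div_zero]
        positivity
      · have h2 : K ^ J ≤ max p.1.1 p.1.2 := by
          rw [← hpJ]
          exact Nat.pow_log_le_self K h0.ne'
        have h3 : ((K : ℝ) ^ J) ≤ max (p.1.1 : ℝ) (p.1.2 : ℝ) := by
          exact_mod_cast h2
        have h4 : ((K : ℝ) ^ J) ^ 2 ≤ (p.1.1 : ℝ) ^ 2 + (p.1.2 : ℝ) ^ 2 := by
          have hpos : (0 : ℝ) ≤ (K : ℝ) ^ J := by positivity
          rcases le_total (p.1.1 : ℝ) (p.1.2 : ℝ) with hle | hle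
          · rw [max_eq_right hle] at h3
            nlinarith [sq_nonneg (p.1.1 : ℝ)]
          · rw [max_eq_left hle] at h3
            nlinarith [sq_nonneg (p.1.2 : ℝ)]
        apply one_div_le_one_div_of_le
        · exact Real.rpow_pos_of_pos (by positivity) _
        · exact Real.rpow_le_rpow (by positivity) h4 (by linarith)
    have h2 := Finset.sum_le_card_nsmul _ _ _ h1
    rw [nsmul_eq_mul] at h2
    -- the number of terms
    have h3 : (#(u.filter (fun p => lv p = J)) : ℝ) ≤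
        θ ^ (J + 1) * ((K : ℝ) ^ (J + 1)) ^ 2 := by
      refine (NS6_card A (K ^ (J + 1)) _ ?_).trans (hS (J + 1))
      intro p hp
      rw [mem_filter] at hp
      have hpJ : Nat.log K (max p.1.1 p.1.2) = J := hp.2
      have h4 : max p.1.1 p.1.2 < K ^ (J + 1) := by
        rw [← hpJ]
        exact Nat.lt_pow_succ_log_self hK1 _
      exact ⟨lt_of_le_of_lt (le_max_left _ _) h4, lt_of_le_of_lt (le_max_right _ _) h4⟩
    have hpw : (0 : ℝ) < (((K : ℝ) ^ J) ^ 2) ^ (1 - c) :=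
      Real.rpow_pos_of_pos (by positivity) _
    refine h2.trans ((mul_le_mul_of_nonneg_right h3 (by positivity)).trans (le_of_eq ?_))
    -- algebra
    have h5 : (((K : ℝ) ^ J) ^ 2) ^ (1 - c) = ((K : ℝ) ^ J) ^ 2 / ((K : ℝ) ^ (2 * c)) ^ J := by
      rw [Real.rpow_sub (by positivity), Real.rpow_one]
      congr 1
      rw [← Real.rpow_natCast ((K : ℝ) ^ (2 * c)) J, ← Real.rpow_mul hK0.le, ← pow_mul,
        ← Real.rpow_natCast (K : ℝ) (J * 2), ← Real.rpow_mul hK0.le]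
      congr 1
      push_cast
      ring
    rw [h5, hρ, mul_pow]
    have h6 : ((K : ℝ) ^ J) ^ 2 ≠ 0 := by positivity
    have h7 : ((K : ℝ) ^ (2 * c)) ^ J ≠ 0 := by positivity
    field_simp
    ring
  refine (Finset.sum_le_sum hterm).trans ?_
  rw [← Finset.mul_sum]
  apply mul_le_mul_of_nonneg_left _ (by positivity)
  exact (summable_geometric_of_lt_one hρ0.le hρ1).sum_le_tsum (range n)
    (fun J _ => by positivity)

end NS
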