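import Pool.Agent.NS.Hold

open Finset

namespace NS

theorem D_nonneg (m : ℕ) {U V : Type} [Fintype U] [Fintype V] (f : U → V → ℝ)
    (hf : ∀ x y, 0 ≤ f x y) : 0 ≤ D m f :=
  Finset.sum_nonneg fun _ _ => Finset.sum_nonneg fun _ _ => Finset.prod_nonneg fun _ _ =>
    Finset.prod_nonneg fun _ _ => hf _ _

theorem sum_eval {m : ℕ} {I : Type} [Fintype I] [DecidableEq I] (a : Fin m) (G : I → ℝ) :
    ∑ s : Fin m → I, G (s a) = (Fintype.card I : ℝ) ^ (m - 1) * ∑ i, G i := by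
  have h := Fintype.sum_piFinset_apply G (Finset.univ : Finset I) a
  rw [Fintype.piFinset_univ, Fintype.card_fin, Finset.card_univ, nsmul_eq_mul] at h
  rw [h]
  push_cast
  rfl

/-- NS-2. One step of the recursion. -/
theorem step (m : ℕ) (hm : 0 < m) {I U : Type} [Fintype I] [DecidableEq I] [Fintype U]
    (f : I × U → I × U → ℝ) (hf : ∀ x y, 0 ≤ f x y)
    (hex : ∀ i j : I, ∃ s t : Fin m → I, (∃ a, s a = i) ∧ (∃ b, t b = j) ∧
      ∀ u v : Fin m → U, ∏ a, ∏ b, f (s a, u a) (t b, v b) = 0) :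
    D m f ≤ ((Fintype.card I : ℝ) ^ (2 * m - 2) - 1 / (m : ℝ) ^ 2) *
      ∑ i : I, ∑ j : I, D m (fun u v => f (i, u) (j, v)) := by
  classical
  have hm' : (0 : ℝ) < m := by exact_mod_cast hm
  set E : I → I → ℝ := fun i j => D m (fun u v => f (i, u) (j, v)) with hE
  have hE0 : ∀ i j, 0 ≤ E i j := fun i j => D_nonneg m _ fun _ _ => hf _ _
  set c : (Fin m → I) → (Fin m → I) → ℝ := fun s t =>
    ∑ u : Fin m → U, ∑ v : Fin m → U, ∏ a, ∏ b, f (s a, u a) (t b, v b) with hc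
  -- the sum is the sum of the `c s t`
  have h1 : D m f = ∑ s, ∑ t, c s t := by
    have e := Equiv.arrowProdEquivProdArrow (Fin m) (fun _ => I) (fun _ => U)
    have h2 : ∀ F : (Fin m → I × U) → ℝ, ∑ x : Fin m → I × U, F x =
        ∑ s : Fin m → I, ∑ u : Fin m → U, F (fun a => (s a, u a)) := by
      intro F
      rw [← Fintype.sum_prod_type' (fun (s : Fin m → I) (u : Fin m → U) => F (fun a => (s a, u a)))]
      exact Fintype.sum_equiv (Equiv.arrowProdEquivProdArrow (Fin m) (fun _ => I) (fun _ => U))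
        _ _ (fun x => rfl)
    unfold D
    rw [h2]
    refine Finset.sum_congr rfl fun s _ => ?_
    have h3 : ∀ u : Fin m → U, ∑ y : Fin m → I × U, ∏ a, ∏ b, f (s a, u a) (y b) =
        ∑ t : Fin m → I, ∑ v : Fin m → U, ∏ a, ∏ b, f (s a, u a) (t b, v b) := fun u => h2 _
    rw [Finset.sum_congr rfl fun u _ => h3 u, Finset.sum_comm]
  -- the bound of NS-1
  have h4 : ∀ s t, c s t ≤ (∑ a, ∑ b, E (s a) (t b)) / (m : ℝ) ^ 2 := by
    intro s t
    exact hold m hm (fun i j u v => f (i, u) (j, v)) (fun _ _ _ _ => hf _ _) s t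
  let F : (Fin m → I) × (Fin m → I) × Fin m × Fin m → ℝ :=
    fun q => E (q.1 q.2.2.1) (q.2.1 q.2.2.2)
  have hF0 : ∀ q, 0 ≤ F q := fun q => hE0 _ _
  -- the total sum
  have h5 : ∑ q, F q = (m : ℝ) ^ 2 * (Fintype.card I : ℝ) ^ (2 * m - 2) * ∑ i, ∑ j, E i j := by
    have h6 : ∑ q, F q = ∑ a : Fin m, ∑ b : Fin m, ∑ s : Fin m → I, ∑ t : Fin m → I,
        E (s a) (t b) := by
      rw [Fintype.sum_prod_type]
      simp_rw [Fintype.sum_prod_type]
      rw [Finset.sum_congr rfl fun s _ => Finset.sum_comm]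
      rw [Finset.sum_comm]
      refine Finset.sum_congr rfl fun a _ => ?_
      rw [Finset.sum_congr rfl fun s _ => Finset.sum_comm]
      rw [Finset.sum_comm]
    rw [h6]
    have h7 : ∀ a b : Fin m, ∑ s : Fin m → I, ∑ t : Fin m → I, E (s a) (t b) =
        (Fintype.card I : ℝ) ^ (2 * m - 2) * ∑ i, ∑ j, E i j := by
      intro a b
      have h8 : ∀ s : Fin m → I, ∑ t : Fin m → I, E (s a) (t b) =
          (Fintype.card I : ℝ) ^ (m - 1) * ∑ j, E (s a) j := fun s => sum_eval b _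
      rw [Finset.sum_congr rfl fun s _ => h8 s, ← Finset.mul_sum,
        sum_eval a (fun i => ∑ j, E i j), ← mul_assoc, ← pow_add]
      congr 2
      omega
    simp_rw [h7]
    rw [Finset.sum_const, Finset.sum_const, Finset.card_univ, Fintype.card_fin, nsmul_eq_mul,
      nsmul_eq_mul]
    ring
  -- the injection
  have h9 : ∀ ij : I × I, ∃ q : (Fin m → I) × (Fin m → I) × Fin m × Fin m,
      c q.1 q.2.1 = 0 ∧ q.1 q.2.2.1 = ij.1 ∧ q.2.1 q.2.2.2 = ij.2 := by
    rintro ⟨i, j⟩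
    obtain ⟨s, t, ⟨a, ha⟩, ⟨b, hb⟩, hz⟩ := hex i j
    refine ⟨(s, t, a, b), ?_, ha, hb⟩
    exact Finset.sum_eq_zero fun u _ => Finset.sum_eq_zero fun v _ => hz u v
  choose g hg1 hg2 hg3 using h9
  have hinj : Function.Injective g := by
    intro x y hxy
    apply Prod.ext
    · rw [← hg2 x, ← hg2 y, hxy]
    · rw [← hg3 x, ← hg3 y, hxy]
  have h10 : ∑ i, ∑ j, E i j ≤ ∑ q ∈ Finset.univ.filter
      (fun q : (Fin m → I) × (Fin m → I) × Fin m × Fin m => c q.1 q.2.1 = 0), F q := by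
    rw [← Fintype.sum_prod_type' E]
    have h11 : ∑ x : I × I, E x.1 x.2 = ∑ x : I × I, F (g x) := by
      refine Finset.sum_congr rfl fun x _ => ?_
      simp only [F]
      rw [hg2, hg3]
    rw [h11, ← Finset.sum_image (f := F) (fun x _ y _ h => hinj h)]
    refine Finset.sum_le_sum_of_subset_of_nonneg ?_ fun q _ _ => hF0 q
    intro q hq
    rw [Finset.mem_image] at hq
    obtain ⟨x, -, rfl⟩ := hq
    rw [Finset.mem_filter]
    exact ⟨Finset.mem_univ _, hg1 x⟩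
  have h12 : ∑ q, F q = ∑ q ∈ Finset.univ.filter
      (fun q : (Fin m → I) × (Fin m → I) × Fin m × Fin m => c q.1 q.2.1 = 0), F q +
      ∑ q ∈ Finset.univ.filter
      (fun q : (Fin m → I) × (Fin m → I) × Fin m × Fin m => ¬ c q.1 q.2.1 = 0), F q :=
    (Finset.sum_filter_add_sum_filter_not _ _ _).symm
  -- the sum of the `c s t`
  have h13 : ∑ s, ∑ t, c s t ≤ (∑ q ∈ Finset.univ.filter
      (fun q : (Fin m → I) × (Fin m → I) × Fin m × Fin m => ¬ c q.1 q.2.1 = 0), F q) /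
      (m : ℝ) ^ 2 := by
    rw [Finset.sum_filter, Fintype.sum_prod_type, Finset.sum_div]
    refine Finset.sum_le_sum fun s _ => ?_
    rw [Fintype.sum_prod_type, Finset.sum_div]
    refine Finset.sum_le_sum fun t _ => ?_
    by_cases hz : c s t = 0
    · rw [hz]
      simp [hz]
    · refine (h4 s t).trans (le_of_eq ?_)
      congr 1
      rw [Fintype.sum_prod_type]
      simp [hz, F]
  rw [h1]
  refine h13.trans ?_
  have h14 : ∑ q ∈ Finset.univ.filter
      (fun q : (Fin m → I) × (Fin m → I) × Fin m × Fin m => ¬ c q.1 q.2.1 = 0), F q ≤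
      (m : ℝ) ^ 2 * (Fintype.card I : ℝ) ^ (2 * m - 2) * ∑ i, ∑ j, E i j -
        ∑ i, ∑ j, E i j := by
    linarith
  calc _ ≤ ((m : ℝ) ^ 2 * (Fintype.card I : ℝ) ^ (2 * m - 2) * ∑ i, ∑ j, E i j -
        ∑ i, ∑ j, E i j) / (m : ℝ) ^ 2 := by gcongr
    _ = ((Fintype.card I : ℝ) ^ (2 * m - 2) - 1 / (m : ℝ) ^ 2) * ∑ i, ∑ j, E i j := by
        field_simp

end NS
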